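import Mathlib
import Pool.Agent.H490R3.RZ.Fin

set_option autoImplicit false

open MeasureTheory

namespace Pool.Agent.Results.MP_465281_an.EuclideanBorel

/-- Euclidean space `ℝ^n`. -/
abbrev E (n : ℕ) : Type := EuclideanSpace ℝ (Fin n)

/-- The unit cube `[0, 1]^n`. -/
def cube (n : ℕ) : Set (E n) := {x | ∀ i, 0 ≤ x i ∧ x i ≤ 1}

/-- On the Borel subsets of `ℝ^n` the `[0, ∞]`-valued set function `μ` is a finitely additive
measure, invariant under all isometries of `ℝ^n` onto itself, with value `1` on the unit cube.
(Its values on other sets are irrelevant.) -/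
structure IsInvariantFA {n : ℕ} (μ : Set (E n) → ENNReal) : Prop where
  empty : μ ∅ = 0
  add : ∀ A B : Set (E n), MeasurableSet A → MeasurableSet B → Disjoint A B →
    μ (A ∪ B) = μ A + μ B
  invariant : ∀ (g : E n ≃ᵢ E n) (A : Set (E n)), MeasurableSet A → μ (g '' A) = μ A
  total : μ (cube n) = 1

/-- The same properties, required only for bounded Borel subsets of `ℝ^n`. -/
structure IsInvariantOnBounded {n : ℕ} (μ : Set (E n) → ENNReal) : Prop where
  empty : μ ∅ = 0
  add : ∀ A B : Set (E n), MeasurableSet A → MeasurableSet B → Bornology.IsBounded A →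
    Bornology.IsBounded B → Disjoint A B → μ (A ∪ B) = μ A + μ B
  invariant : ∀ (g : E n ≃ᵢ E n) (A : Set (E n)), MeasurableSet A → Bornology.IsBounded A →
    μ (g '' A) = μ A
  total : μ (cube n) = 1

/-- **Borel Ruziewicz problem for Euclidean spaces.** Let `n ≥ 3`. A finitely additive isometry
invariant measure on the bounded Borel subsets of `ℝ^n` with value `1` on the unit cube is Lebesgue
measure. For measures on all Borel sets of `ℝ^n`, the value on a Borel set `A` is forced to be
the Lebesgue measure of `A` exactly when `A` is bounded or of infinite Lebesgue measure. -/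
theorem result (n : ℕ) (hn : 3 ≤ n) :
    (∀ μ : Set (E n) → ENNReal, IsInvariantOnBounded μ →
      ∀ A : Set (E n), MeasurableSet A → Bornology.IsBounded A → μ A = volume A) ∧
    (∀ A : Set (E n), MeasurableSet A →
      ((∀ μ : Set (E n) → ENNReal, IsInvariantFA μ → μ A = volume A) ↔
        (Bornology.IsBounded A ∨ volume A = ⊤))) := by
  refine ⟨fun μ h A hA hb => ?_, fun A hA => ?_⟩
  · exact Pool.Agent.H490R3.RZ.main_b n hn μ ⟨h.empty, h.add, h.invariant, h.total⟩ A hA hb
  · rw [← Pool.Agent.H490R3.RZ.main_iff n hn A hA]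
    constructor
    · intro h μ hμ
      exact h μ ⟨hμ.empty, hμ.add, hμ.inv, hμ.cube⟩
    · intro h μ hμ
      exact h μ ⟨hμ.empty, hμ.add, hμ.invariant, hμ.total⟩

end Pool.Agent.Results.MP_465281_an.EuclideanBorel
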